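import Pool.Agent.HB.Z.Final

/-!
# MP_f31a67_ag, Q1 (negated form)

There are a smooth projective complex surface `X` with a polarisation `H` and a Higgs bundle
`(E, θ)` on `X` which is slope `H`-stable, and whose pull-back to every smooth projective surface
`Y` with a generically finite morphism `Y → X` is slope stable with respect to every polarisation
of `Y`, with `∫ Δ(E) = 0`, but such that `r² c₂(E) ≠ (r choose 2) c₁(E)²` in `CH²(X)_ℚ`.

The example has rank `5`.  `X` is a tower of cyclic covers of degree three of the product of two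
copies of the curve `B : y² = x⁶ + 1`, `E` is the direct image of a line bundle on a curve of
degree five over `X` inside `B × X`, modified along two divisors.  The class
`10 c₂(E) - 4 c₁(E)²` is a non-zero class of degree zero in `CH_0(X)_ℚ`, detected by an algebraic
version of Mumford's argument.
-/

set_option autoImplicit false

open scoped Matrix
open HB

namespace Pool.Agent.Results.MP_f31a67_ag.StableHiggsChow

theorem result :
    ∃ (K : Type) (_ : Field K) (_ : Algebra ℂ K) (X : Surf ℂ K) (r : ℕ) (E : VB X r)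
      (θ : Matrix (Fin r) (Fin r) (Ω[K⁄ℂ])) (c₁ : X.Div) (c₂ : X.CH0),
      X.Smooth ∧ IsHiggs E.E θ ∧ Stable X E.E θ ∧
      (∀ (L : Type) [Field L] [Algebra ℂ L] [Algebra K L] [IsScalarTower ℂ K L]
        (Y : Surf ℂ L), Y.Smooth → IsMor Y X → Stable Y (pull Y E.E) (pullΘ L θ)) ∧
      IsChern E.E c₁ c₂ ∧
      X.deg ((2 * r : ℚ) • c₂ - (r - 1 : ℚ) • X.prod c₁ c₁) = 0 ∧
      (r ^ 2 : ℚ) • c₂ ≠ (r.choose 2 : ℚ) • X.prod c₁ c₁ :=
  HB.q1False

end Pool.Agent.Results.MP_f31a67_ag.StableHiggsChow
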